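import Pool.Agent.Helper47.KN.Goals

/-!
# Project KN, packet DEP: the sections of a relation at a deep level are trivial words
-/

set_option autoImplicit false

namespace Pool.Agent.Helper44.KN

open Pool.Agent.Helper47.KN

variable {n : ℕ} (v : ZMod (n + 2) → Bool)

/-- the vertex at which the letter has an output -/
def inn (l : ZMod (n + 2) × Bool) : Bool := if l.2 = true then v l.1 else vp v l.1

/-- the section of a letter -/
def out (y : Bool) (l : ZMod (n + 2) × Bool) : List (ZMod (n + 2) × Bool) :=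
  if y = inn v l then [(l.1 - 1, l.2)] else []

/-- the section of a list -/
def secL (y : Bool) : List (ZMod (n + 2) × Bool) → List (ZMod (n + 2) × Bool)
  | [] => []
  | l :: L => out v (xor y (fl (FreeGroup.mk L))) l ++ secL y L

/-- all letters have an output along the path of `y` -/
def Gd (y : Bool) : List (ZMod (n + 2) × Bool) → Prop
  | [] => True
  | l :: L => xor y (fl (FreeGroup.mk L)) = inn v l ∧ Gd y L

theorem mk_cons (l : ZMod (n + 2) × Bool) (L : List (ZMod (n + 2) × Bool)) :
    FreeGroup.mk (l :: L) = FreeGroup.mk [l] * FreeGroup.mk L := by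
  rw [FreeGroup.mul_mk]
  rfl

theorem mk_false (i : ZMod (n + 2)) : FreeGroup.mk [(i, false)] = (FreeGroup.of i)⁻¹ := by
  rw [FreeGroup.of, FreeGroup.inv_mk]
  rfl

theorem fl_single (l : ZMod (n + 2) × Bool) : fl (FreeGroup.mk [l]) = decide (l.1 = 0) := by
  rcases l with ⟨i, s⟩
  cases s
  · rw [mk_false, fl_inv, fl_of]
  · exact fl_of i

theorem sec_single (y : Bool) (l : ZMod (n + 2) × Bool) :
    sec v y (FreeGroup.mk [l]) = FreeGroup.mk (out v y l) := by
  rcases l with ⟨i, s⟩
  cases s
  · rw [mk_false, sec_inv, fl_of, sec_of]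
    have h : xor y (decide (i = 0)) = v i ↔ y = inn v (i, false) := by
      simp only [inn, vp_eq]
      cases y <;> cases v i <;> cases decide (i = 0) <;> simp
    unfold out
    by_cases h1 : y = inn v (i, false)
    · rw [if_pos h1, if_pos (h.2 h1), mk_false]
    · rw [if_neg h1, if_neg (fun h2 => h1 (h.1 h2)), inv_one]
      rfl
  · have h := sec_of v y i
    unfold out
    by_cases h1 : y = v i
    · rw [if_pos (by simpa [inn] using h1)]
      rw [if_pos h1] at h
      exact h
    · rw [if_neg (by simpa [inn] using h1)]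
      rw [if_neg h1] at h
      exact h

theorem sec_mk (y : Bool) (L : List (ZMod (n + 2) × Bool)) :
    sec v y (FreeGroup.mk L) = FreeGroup.mk (secL v y L) := by
  induction L with
  | nil => exact sec_one v y
  | cons l L ih => rw [mk_cons, sec_mul, sec_single, ih, FreeGroup.mul_mk]; rfl

theorem out_length (y : Bool) (l : ZMod (n + 2) × Bool) : (out v y l).length ≤ 1 := by
  unfold out
  split_ifs <;> simp

theorem secL_length (y : Bool) (L : List (ZMod (n + 2) × Bool)) :
    (secL v y L).length ≤ L.length := by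
  induction L with
  | nil => simp [secL]
  | cons l L ih =>
    simp only [secL, List.length_append, List.length_cons]
    have := out_length v (xor y (fl (FreeGroup.mk L))) l
    omega

theorem secL_full (y : Bool) (L : List (ZMod (n + 2) × Bool))
    (h : L.length ≤ (secL v y L).length) :
    Gd v y L ∧ secL v y L = L.map (fun l => (l.1 - 1, l.2)) := by
  induction L with
  | nil => exact ⟨trivial, rfl⟩
  | cons l L ih =>
    simp only [secL, List.length_append, List.length_cons] at h
    have h1 := out_length v (xor y (fl (FreeGroup.mk L))) l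
    have h2 := secL_length v y L
    obtain ⟨h3, h4⟩ := ih (by omega)
    have h5 : xor y (fl (FreeGroup.mk L)) = inn v l := by
      by_contra h6
      unfold out at h
      rw [if_neg h6] at h
      simp only [List.length_nil] at h
      omega
    refine ⟨⟨h5, h3⟩, ?_⟩
    show out v (xor y (fl (FreeGroup.mk L))) l ++ secL v y L = _
    rw [h4]
    unfold out
    rw [if_pos h5]
    rfl

theorem Dep_succ (k : ℕ) : ∀ w : FreeGroup (ZMod (n + 2)), Dep v k w → Dep v (k + 1) w := by
  induction k with
  | zero =>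
    intro w hw
    have hw1 : w = 1 := hw
    subst hw1
    exact ⟨fl_one, fun b => sec_one v b⟩
  | succ k ih => exact fun w hw => ⟨hw.1, fun b => ih _ (hw.2 b)⟩

theorem Dep_mono {k m : ℕ} (h : k ≤ m) {w : FreeGroup (ZMod (n + 2))} (hw : Dep v k w) :
    Dep v m w := by
  induction h with
  | refl => exact hw
  | step _ ih => exact Dep_succ v _ _ ih

/-- a list which is a relation and not deep -/
def Bad (L : List (ZMod (n + 2) × Bool)) : Prop :=
  FreeGroup.mk L ∈ NN v ∧ ∀ k, ¬ Dep v k (FreeGroup.mk L)

theorem Bad.step {L : List (ZMod (n + 2) × Bool)} (hL : Bad v L)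
    (hmin : ∀ L', Bad v L' → L.length ≤ L'.length) :
    ∃ b, Gd v b L ∧ Bad v (L.map (fun l => (l.1 - 1, l.2))) := by
  have h1 : ∃ b, ∀ k, ¬ Dep v k (sec v b (FreeGroup.mk L)) := by
    by_contra hcon
    push Not at hcon
    obtain ⟨k0, hk0⟩ := hcon false
    obtain ⟨k1, hk1⟩ := hcon true
    apply hL.2 (max k0 k1 + 1)
    refine ⟨fl_of_NN v hL.1, ?_⟩
    rintro (_ | _)
    · exact Dep_mono v (le_max_left _ _) hk0
    · exact Dep_mono v (le_max_right _ _) hk1
  obtain ⟨b, hb⟩ := h1
  have h2 : Bad v (secL v b L) := by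
    refine ⟨?_, ?_⟩
    · rw [← sec_mk]
      exact sec_mem_NN v hL.1 b
    · rw [← sec_mk]
      exact hb
  obtain ⟨h3, h4⟩ := secL_full v b L (hmin _ h2)
  rw [h4] at h2
  exact ⟨b, h3, h2⟩

theorem Bad.iter {L : List (ZMod (n + 2) × Bool)} (hL : Bad v L)
    (hmin : ∀ L', Bad v L' → L.length ≤ L'.length) (k : ℕ) :
    Bad v (L.map (fun l => (l.1 - (k : ZMod (n + 2)), l.2))) := by
  induction k with
  | zero => simpa using hL
  | succ k ih =>
    obtain ⟨b, -, h⟩ := ih.step v (fun L' hL' => by rw [List.length_map]; exact hmin L' hL')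
    rw [List.map_map] at h
    have h1 : ((fun l : ZMod (n + 2) × Bool => (l.1 - 1, l.2)) ∘
        (fun l : ZMod (n + 2) × Bool => (l.1 - (k : ZMod (n + 2)), l.2))) =
        (fun l : ZMod (n + 2) × Bool => (l.1 - ((k + 1 : ℕ) : ZMod (n + 2)), l.2)) := by
      funext l
      simp only [Function.comp]
      congr 1
      push_cast
      ring
    rw [h1] at h
    exact h

theorem Bad.good {L : List (ZMod (n + 2) × Bool)} (hL : Bad v L)
    (hmin : ∀ L', Bad v L' → L.length ≤ L'.length) (c : ZMod (n + 2)) :
    ∃ b, Gd v b (L.map (fun l => (l.1 - c, l.2))) ∧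
      fl (FreeGroup.mk (L.map (fun l => (l.1 - c, l.2)))) = false := by
  have h := hL.iter v hmin c.val
  rw [ZMod.natCast_zmod_val] at h
  obtain ⟨b, hb, -⟩ := h.step v (fun L' hL' => by rw [List.length_map]; exact hmin L' hL')
  exact ⟨b, hb, fl_of_NN v h.1⟩

theorem cancel (i : ZMod (n + 2)) (s : Bool) :
    FreeGroup.mk [(i, s)] * FreeGroup.mk [(i, !s)] = 1 := by
  cases s
  · rw [mk_false]
    exact inv_mul_cancel (FreeGroup.of i)
  · rw [Bool.not_true, mk_false]
    exact mul_inv_cancel (FreeGroup.of i)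

theorem bnext {b : Bool} {l l' : ZMod (n + 2) × Bool} {B : List (ZMod (n + 2) × Bool)}
    (h1 : xor b (fl (FreeGroup.mk (l' :: B))) = inn v l) (h2 : xor b (fl (FreeGroup.mk B)) = inn v l') :
    inn v (l'.1, !l'.2) = inn v l := by
  rw [mk_cons, fl_mul, fl_single] at h1
  rw [← h1]
  have h3 : inn v (l'.1, !l'.2) = xor (inn v l') (decide (l'.1 = 0)) := by
    unfold inn
    rw [vp_eq]
    cases l'.2 <;> cases v l'.1 <;> cases decide (l'.1 = 0) <;> rfl
  rw [h3, ← h2]
  cases b <;> cases fl (FreeGroup.mk B) <;> cases decide (l'.1 = 0) <;> rfl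

/-- `vp v` is not a translate of `v` -/
theorem not_tr (t : ZMod (n + 2)) (h : ∀ x, vp v x = v (x + t)) : False := by
  let f : ZMod (n + 2) → ZMod 2 := fun x => if v x = true then 1 else 0
  have h1 : ∀ x, (if vp v x = true then (1 : ZMod 2) else 0) = f x + (if x = 0 then 1 else 0) := by
    intro x
    by_cases hx : x = 0
    · subst hx
      simp only [f, vp, if_true]
      cases v 0
      · simp
      · simp only [Bool.not_true, Bool.false_eq_true, if_false, if_true]
        decide
    · simp [f, vp, hx]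
  have h2 : ∑ x, f (x + t) = ∑ x, f x := Fintype.sum_equiv (Equiv.addRight t) _ _ (fun x => rfl)
  have h3 : ∑ x, (if vp v x = true then (1 : ZMod 2) else 0) = ∑ x, f (x + t) := by
    apply Finset.sum_congr rfl
    intro x _
    rw [h x]
  rw [Finset.sum_congr rfl (fun x _ => h1 x), Finset.sum_add_distrib, h2] at h3
  simp at h3

/-- two neighbours -/
theorem nb {l l' : ZMod (n + 2) × Bool}
    (h : ∀ c : ZMod (n + 2), inn v (l'.1 - c, !l'.2) = inn v (l.1 - c, l.2)) : l'.2 = !l.2 := by
  rcases l with ⟨i, s⟩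
  rcases l' with ⟨i', s'⟩
  simp only at h ⊢
  by_contra hne
  have hs : s' = s := by
    revert hne
    cases s <;> cases s' <;> simp
  subst hs
  cases s'
  · apply not_tr v (i' - i)
    intro x
    have := h (i - x)
    simp only [inn, Bool.not_false, if_true, Bool.false_eq_true, if_false, sub_sub_cancel] at this
    rw [← this]
    congr 1
    ring
  · apply not_tr v (i - i')
    intro x
    have := h (i' - x)
    simp only [inn, Bool.not_true, if_true, Bool.false_eq_true, if_false, sub_sub_cancel] at this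
    rw [this]
    congr 1
    ring

/-- both periodicities are impossible -/
theorem fin_contra {l1 l2 l3 : ZMod (n + 2) × Bool} (h12 : l1.1 ≠ l2.1) (h23 : l2.1 ≠ l3.1)
    (hs : l2.2 = !l1.2) (hs' : l3.2 = !l2.2)
    (h : ∀ c : ZMod (n + 2), inn v (l2.1 - c, !l2.2) = inn v (l1.1 - c, l1.2))
    (h' : ∀ c : ZMod (n + 2), inn v (l3.1 - c, !l3.2) = inn v (l2.1 - c, l2.2)) : False := by
  -- the periods
  have key : ∀ d e : ZMod (n + 2), d ≠ 0 → e ≠ 0 → (∀ x, vp v (x + d) = vp v x) →
      (∀ x, v (x + e) = v x) → False := by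
    intro d e hd he h1 h2
    have a1 := h1 0
    have a2 := h2 0
    rw [zero_add] at a1 a2
    have a3 : vp v 0 = !v 0 := by simp [vp]
    have a4 : vp v d = v d := by simp [vp, hd]
    have a5 : vp v e = v e := by simp [vp, he]
    have a6 := h1 e
    have a7 := h2 d
    by_cases hde : e + d = 0
    · rw [add_comm, hde] at a7
      rw [a3, a4, ← a7] at a1
      revert a1
      cases v 0 <;> simp
    · have a8 : vp v (e + d) = v (e + d) := by simp [vp, hde]
      rw [a8, add_comm e d, a7, a5, a2, ← a4, a1, a3] at a6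
      revert a6
      cases v 0 <;> simp
  rcases l1 with ⟨i1, s1⟩
  rcases l2 with ⟨i2, s2⟩
  rcases l3 with ⟨i3, s3⟩
  simp only at h12 h23 hs hs' h h'
  subst hs
  subst hs'
  simp only [Bool.not_not] at h h'
  cases s1
  · simp only [inn, Bool.not_false, if_true, Bool.false_eq_true, if_false] at h h'
    apply key (i2 - i1) (i3 - i2) (sub_ne_zero.2 (Ne.symm h12)) (sub_ne_zero.2 (Ne.symm h23))
    · intro x
      have := h (i1 - x)
      rw [sub_sub_cancel] at this
      rw [← this]
      congr 1
      ring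
    · intro x
      have := h' (i2 - x)
      rw [sub_sub_cancel] at this
      rw [← this]
      congr 1
      ring
  · simp only [inn, Bool.not_true, if_true, Bool.false_eq_true, if_false] at h h'
    apply key (i3 - i2) (i2 - i1) (sub_ne_zero.2 (Ne.symm h23)) (sub_ne_zero.2 (Ne.symm h12))
    · intro x
      have := h' (i2 - x)
      rw [sub_sub_cancel] at this
      rw [← this]
      congr 1
      ring
    · intro x
      have := h (i1 - x)
      rw [sub_sub_cancel] at this
      rw [← this]
      congr 1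
      ring

theorem no_min {L : List (ZMod (n + 2) × Bool)} (hL : Bad v L)
    (hmin : ∀ L', Bad v L' → L.length ≤ L'.length) : False := by
  have hg := hL.good v hmin
  match L, hL, hmin, hg with
  | [], hL, _, _ => exact hL.2 0 rfl
  | [l], _, _, hg =>
    have h1 : ∀ c : ZMod (n + 2), inn v (l.1 - c, !l.2) = inn v (l.1 - c, l.2) := by
      intro c
      obtain ⟨b, hb, hf⟩ := hg c
      simp only [List.map_cons, List.map_nil, Gd, and_true] at hb hf
      have h2 : fl (FreeGroup.mk ([] : List (ZMod (n + 2) × Bool))) = false := fl_one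
      have h3 := bnext v (b := b) (l := (l.1 - c, l.2)) (l' := (l.1 - c, l.2)) (B := [])
        (by rw [hf, ← hb, h2]) hb
      exact h3
    have h2 := nb v h1
    revert h2
    cases l.2 <;> simp
  | [l1, l2], hL, _, hg =>
    have h1 : ∀ c : ZMod (n + 2), inn v (l2.1 - c, !l2.2) = inn v (l1.1 - c, l1.2) := by
      intro c
      obtain ⟨b, hb, -⟩ := hg c
      simp only [List.map_cons, List.map_nil, Gd, and_true] at hb
      exact bnext v (l := (l1.1 - c, l1.2)) (l' := (l2.1 - c, l2.2)) hb.1 hb.2
    have h2 : ∀ c : ZMod (n + 2), inn v (l1.1 - c, !l1.2) = inn v (l2.1 - c, l2.2) := by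
      intro c
      obtain ⟨b, hb, hf⟩ := hg c
      simp only [List.map_cons, List.map_nil, Gd, and_true] at hb hf
      have h0 : fl (FreeGroup.mk ([] : List (ZMod (n + 2) × Bool))) = false := fl_one
      exact bnext v (b := b) (l := (l2.1 - c, l2.2)) (l' := (l1.1 - c, l1.2))
        (B := [(l2.1 - c, l2.2)]) (by rw [hf, ← hb.2, h0]) hb.1
    have h3 := nb v h1
    have h4 := nb v h2
    have h5 : l1.1 ≠ l2.1 := by
      intro h
      apply hL.2 0
      show FreeGroup.mk [l1, l2] = 1
      rw [mk_cons, show l1 = (l1.1, l1.2) from rfl, show l2 = (l1.1, !l1.2) by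
        rw [h, ← h3]]
      exact cancel l1.1 l1.2
    exact fin_contra v h5 (Ne.symm h5) h3 h4 h1 h2
  | l1 :: l2 :: l3 :: B, hL, hmin, hg =>
    have h1 : ∀ c : ZMod (n + 2), inn v (l2.1 - c, !l2.2) = inn v (l1.1 - c, l1.2) := by
      intro c
      obtain ⟨b, hb, -⟩ := hg c
      simp only [List.map_cons, Gd] at hb
      exact bnext v (l := (l1.1 - c, l1.2)) (l' := (l2.1 - c, l2.2)) hb.1 hb.2.1
    have h2 : ∀ c : ZMod (n + 2), inn v (l3.1 - c, !l3.2) = inn v (l2.1 - c, l2.2) := by
      intro c
      obtain ⟨b, hb, -⟩ := hg c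
      simp only [List.map_cons, Gd] at hb
      exact bnext v (l := (l2.1 - c, l2.2)) (l' := (l3.1 - c, l3.2)) hb.2.1 hb.2.2.1
    have h3 := nb v h1
    have h4 := nb v h2
    have h5 : l1.1 ≠ l2.1 := by
      intro h
      have e : FreeGroup.mk (l1 :: l2 :: l3 :: B) = FreeGroup.mk (l3 :: B) := by
        rw [mk_cons, mk_cons l2, ← mul_assoc, show l1 = (l1.1, l1.2) from rfl,
          show l2 = (l1.1, !l1.2) by rw [h, ← h3]]
        rw [show FreeGroup.mk [(l1.1, l1.2)] * FreeGroup.mk [(l1.1, !l1.2)] = 1 from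
          cancel l1.1 l1.2, one_mul]
      have h6 := hmin (l3 :: B) (by
        unfold Bad
        rw [← e]
        exact hL)
      simp only [List.length_cons] at h6
      omega
    have h5' : l2.1 ≠ l3.1 := by
      intro h
      have e : FreeGroup.mk (l1 :: l2 :: l3 :: B) = FreeGroup.mk (l1 :: B) := by
        rw [mk_cons, mk_cons l2, mk_cons l3, ← mul_assoc (FreeGroup.mk [l2]),
          show l2 = (l2.1, l2.2) from rfl, show l3 = (l2.1, !l2.2) by rw [h, ← h4]]
        rw [show FreeGroup.mk [(l2.1, l2.2)] * FreeGroup.mk [(l2.1, !l2.2)] = 1 from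
          cancel l2.1 l2.2, one_mul, ← mk_cons]
      have h6 := hmin (l1 :: B) (by
        unfold Bad
        rw [← e]
        exact hL)
      simp only [List.length_cons] at h6
      omega
    exact fin_contra v h5 h5' h3 h4 h1 h2

theorem t : Pool.Agent.Helper47.KN.K_DEP := by
  intro n v w hw
  by_contra hcon
  push Not at hcon
  have hex : ∃ m, ∃ L : List (ZMod (n + 2) × Bool), Bad v L ∧ L.length = m :=
    ⟨_, w.toWord, ⟨by rw [FreeGroup.mk_toWord]; exact hw, by
      rw [FreeGroup.mk_toWord]; exact hcon⟩, rfl⟩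
  classical
  obtain ⟨L, hL, hm⟩ := Nat.find_spec hex
  exact no_min v hL (fun L' hL' => by
    rw [hm]
    exact Nat.find_min' hex ⟨L', hL', rfl⟩)

end Pool.Agent.Helper44.KN
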