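import Pool.Agent.Helper47.KN.Goals

/-!
# Project KN, packet FR: finite 2-groups
-/

set_option autoImplicit false

namespace Pool.Agent.Helper44.KN.FR

open Pool.Agent.Helper47.KN

/-- a normal maximal subgroup of a finite 2-group has a quotient of order two -/
theorem card_quot {E : Type} [Group E] [Finite E] (hE : IsPGroup 2 E) (M : Subgroup E)
    (hM : IsCoatom M) [M.Normal] : Nat.card (E ⧸ M) = 2 := by
  have : Nontrivial (E ⧸ M) := by
    rw [QuotientGroup.nontrivial_iff]
    exact hM.1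
  have hp : IsPGroup 2 (E ⧸ M) := hE.to_quotient M
  have : Fact (Nat.Prime 2) := ⟨Nat.prime_two⟩
  obtain ⟨k, hk⟩ := IsPGroup.iff_card.1 hp
  have hk0 : k ≠ 0 := by
    rintro rfl
    have := Finite.one_lt_card (α := E ⧸ M)
    rw [hk] at this
    simp at this
  obtain ⟨x, hx⟩ := exists_prime_orderOf_dvd_card' (G := E ⧸ M) 2
    (by rw [hk]; exact dvd_pow_self 2 hk0)
  have hx1 : x ≠ 1 := by
    rintro rfl
    rw [orderOf_one] at hx
    exact absurd hx (by norm_num)
  obtain ⟨y, rfl⟩ := QuotientGroup.mk_surjective x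
  have h1 : M < (Subgroup.zpowers ((y : E) : E ⧸ M)).comap (QuotientGroup.mk' M) := by
    refine lt_of_le_of_ne ?_ ?_
    · intro z hz
      rw [Subgroup.mem_comap]
      have : (QuotientGroup.mk' M) z = 1 := by
        rw [QuotientGroup.mk'_apply]
        exact (QuotientGroup.eq_one_iff z).2 hz
      rw [this]
      exact Subgroup.one_mem _
    · intro h2
      apply hx1
      have h3 : y ∈ (Subgroup.zpowers ((y : E) : E ⧸ M)).comap (QuotientGroup.mk' M) := by
        rw [Subgroup.mem_comap]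
        exact Subgroup.mem_zpowers _
      rw [← h2] at h3
      exact (QuotientGroup.eq_one_iff y).2 h3
  have h2 := hM.2 _ h1
  have h3 : Subgroup.zpowers ((y : E) : E ⧸ M) = ⊤ := by
    rw [eq_top_iff]
    rintro z -
    obtain ⟨z, rfl⟩ := QuotientGroup.mk_surjective z
    have : z ∈ (Subgroup.zpowers ((y : E) : E ⧸ M)).comap (QuotientGroup.mk' M) := by
      rw [h2]
      exact Subgroup.mem_top _
    exact this
  rw [← Subgroup.card_top, ← h3, Nat.card_zpowers, hx]

theorem main (ι : Type) [Finite ι] (N : Subgroup (FreeGroup ι)) (hN : N.Normal)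
    (hQ : ∃ (Q : Type) (_ : Group Q), Finite Q ∧ IsPGroup 2 Q ∧ ∃ h : FreeGroup ι →* Q,
      ∃ r ∈ N, h r ≠ 1) :
    ∃ V : Subgroup (FreeGroup ι), V.Normal ∧ ⁅(⊤ : Subgroup (FreeGroup ι)), N⁆ ≤ V ∧ ¬ N ≤ V ∧
      ∀ α : FreeGroup ι →* FreeGroup ι,
        (∀ χ : FreeGroup ι →* Multiplicative (ZMod 2), χ.comp α = 1 → χ = 1) →
        ∀ w, α w ∈ V ↔ w ∈ V := by
  classical
  have : Fact (Nat.Prime 2) := ⟨Nat.prime_two⟩
  have hex : ∃ m : ℕ, ∃ (Q : Type) (_ : Group Q), Finite Q ∧ IsPGroup 2 Q ∧ Nat.card Q = m ∧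
      ∃ h : FreeGroup ι →* Q, ∃ r ∈ N, h r ≠ 1 := by
    obtain ⟨Q, i, h1, h2, h3⟩ := hQ
    exact ⟨_, Q, i, h1, h2, rfl, h3⟩
  obtain ⟨Q, iQ, fQ, pQ, cQ, h0, r0, hr0, hne⟩ := Nat.find_spec hex
  have hmin : ∀ (Q' : Type) (_ : Group Q'), Finite Q' → IsPGroup 2 Q' →
      Nat.card Q' < Nat.card Q → ∀ h : FreeGroup ι →* Q', ∀ r ∈ N, h r = 1 := by
    intro Q' i' f' p' hlt h r hr
    by_contra hcon
    rw [cQ] at hlt
    exact Nat.find_min hex hlt ⟨Q', i', f', p', rfl, h, r, hr, hcon⟩
  have : Nontrivial Q := ⟨⟨h0 r0, 1, hne⟩⟩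
  have : Nontrivial (Subgroup.center Q) := pQ.center_nontrivial
  have hlt : Nat.card (Q ⧸ Subgroup.center Q) < Nat.card Q := by
    rw [Subgroup.card_eq_card_quotient_mul_card_subgroup (Subgroup.center Q)]
    have h1 : 0 < Nat.card (Q ⧸ Subgroup.center Q) := Nat.card_pos
    have h2 : 1 < Nat.card (Subgroup.center Q) := Finite.one_lt_card
    exact (Nat.lt_mul_iff_one_lt_right h1).2 h2
  have hcen : ∀ (h : FreeGroup ι →* Q), ∀ r ∈ N, h r ∈ Subgroup.center Q := by
    intro h r hr
    have := hmin (Q ⧸ Subgroup.center Q) _ inferInstance (pQ.to_quotient _) hlt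
      ((QuotientGroup.mk' (Subgroup.center Q)).comp h) r hr
    rw [MonoidHom.comp_apply, QuotientGroup.mk'_apply] at this
    exact (QuotientGroup.eq_one_iff _).1 this
  have hmem : ∀ w, w ∈ (⨅ h : FreeGroup ι →* Q, h.ker) ↔ ∀ h : FreeGroup ι →* Q, h w = 1 := by
    intro w
    rw [Subgroup.mem_iInf]
    rfl
  have hVn : (⨅ h : FreeGroup ι →* Q, h.ker).Normal := by
    refine Subgroup.normal_iInf_normal fun h => ?_
    infer_instance
  have hVa : ∀ α : FreeGroup ι →* FreeGroup ι, ∀ w ∈ (⨅ h : FreeGroup ι →* Q, h.ker),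
      α w ∈ (⨅ h : FreeGroup ι →* Q, h.ker) := by
    intro α w hw
    rw [hmem] at hw ⊢
    intro h
    exact hw (h.comp α)
  refine ⟨⨅ h : FreeGroup ι →* Q, h.ker, hVn, ?_, ?_, ?_⟩
  · rw [Subgroup.commutator_le]
    intro g _ r hr
    rw [hmem]
    intro h
    rw [map_commutatorElement, commutatorElement_eq_one_iff_mul_comm]
    exact (Subgroup.mem_center_iff.1 (hcen h r hr) (h g))
  · intro hle
    exact hne ((hmem r0).1 (hle hr0) h0)
  · intro α hα
    set V : Subgroup (FreeGroup ι) := ⨅ h : FreeGroup ι →* Q, h.ker with hV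
    have : Finite (FreeGroup ι →* Q) := Finite.of_equiv (ι → Q) FreeGroup.lift
    have : V.FiniteIndex := Subgroup.finiteIndex_iInf fun h => inferInstance
    have : Finite (FreeGroup ι ⧸ V) := Subgroup.finite_quotient_of_finiteIndex
    have hE : IsPGroup 2 (FreeGroup ι ⧸ V) := by
      obtain ⟨k, hk⟩ := IsPGroup.iff_card.1 pQ
      intro x
      obtain ⟨w, rfl⟩ := QuotientGroup.mk_surjective x
      refine ⟨k, ?_⟩
      rw [← QuotientGroup.mk_pow]
      refine (QuotientGroup.eq_one_iff _).2 ?_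
      rw [hmem]
      intro h
      rw [map_pow, ← hk]
      exact pow_card_eq_one'
    have hle : V ≤ V.comap α := fun w hw => hVa α w hw
    have hβ : ∀ w : FreeGroup ι, QuotientGroup.map V V α hle (w : FreeGroup ι ⧸ V) =
      ((α w : FreeGroup ι) : FreeGroup ι ⧸ V) := fun w => rfl
    have hsur : Function.Surjective (QuotientGroup.map V V α hle) := by
      rw [← MonoidHom.range_eq_top]
      by_contra hne'
      rcases eq_top_or_exists_le_coatom (QuotientGroup.map V V α hle).range with h1 | ⟨M, hM, hM'⟩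
      · exact hne' h1
      · have : Group.IsNilpotent (FreeGroup ι ⧸ V) := hE.isNilpotent
        have : M.Normal := Subgroup.NormalizerCondition.normal_of_coatom M
          Group.normalizerCondition_of_isNilpotent hM
        have hc := card_quot hE M hM
        have hz : Nat.card (Multiplicative (ZMod 2)) = 2 := by
          rw [Nat.card_congr Multiplicative.toAdd, Nat.card_zmod]
        let e := mulEquivOfPrimeCardEq hc hz
        have h1 := hα ((e.toMonoidHom.comp (QuotientGroup.mk' M)).comp (QuotientGroup.mk' V)) (by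
          ext1 i
          show e (QuotientGroup.mk' M (QuotientGroup.mk' V (α (FreeGroup.of i)))) = 1
          rw [map_eq_one_iff e e.injective, QuotientGroup.mk'_apply]
          refine (QuotientGroup.eq_one_iff _).2 (hM' ?_)
          exact ⟨((FreeGroup.of i : FreeGroup ι) : FreeGroup ι ⧸ V), hβ _⟩)
        apply hM.1
        rw [eq_top_iff]
        rintro x -
        obtain ⟨w, rfl⟩ := QuotientGroup.mk_surjective x
        have h2 := DFunLike.congr_fun h1 w
        have h3 : e (QuotientGroup.mk' M (QuotientGroup.mk' V w)) = 1 := h2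
        rw [map_eq_one_iff e e.injective, QuotientGroup.mk'_apply] at h3
        exact (QuotientGroup.eq_one_iff _).1 h3
    have hinj : Function.Injective (QuotientGroup.map V V α hle) :=
      Finite.injective_iff_surjective.2 hsur
    intro w
    constructor
    · intro h1
      have h2 : QuotientGroup.map V V α hle (w : FreeGroup ι ⧸ V) = 1 := by
        rw [hβ]
        exact (QuotientGroup.eq_one_iff _).2 h1
      rw [map_eq_one_iff _ hinj] at h2
      exact (QuotientGroup.eq_one_iff _).1 h2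
    · exact hVa α w

/-- packet FR -/
theorem t : K_FR := fun ι _ N hN hQ => main ι N hN hQ

end Pool.Agent.Helper44.KN.FR
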