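import Pool.Agent.Helper70.KN.Goals

/-! # Project KN, packet MF: measurability and finiteness -/

open MeasureTheory Set

namespace Pool.Agent.Helper44.KN.MF

open Pool.Agent.Helper70.KN

variable {N : ℕ}

theorem continuous_zr (J : Finset (Fin N)) : Continuous (zr J) := by
  refine continuous_pi fun i => ?_
  unfold zr
  by_cases h : i ∈ J
  · simp only [if_pos h]
    exact continuous_const
  · simp only [if_neg h]
    exact continuous_apply i

theorem measurable_nonneg : MeasurableSet {x : Fin N → ℝ | 0 ≤ x} :=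
  (isClosed_Ici (a := (0 : Fin N → ℝ))).measurableSet

theorem measurable_lt (J : Finset (Fin N)) (h : ℝ) :
    MeasurableSet {x : Fin N → ℝ | ∀ j ∈ J, x j < h} := by
  have e : {x : Fin N → ℝ | ∀ j ∈ J, x j < h} = ⋂ j ∈ J, {x : Fin N → ℝ | x j < h} := by
    ext x
    simp
  rw [e]
  exact Finset.measurableSet_biInter _ fun j _ =>
    measurableSet_lt (measurable_pi_apply j) measurable_const

theorem t (hCL : S_CL) (hBD : S_BD) : S_MF := by
  intro N V hV J
  obtain ⟨M, hM, hb⟩ := hBD N V hV
  have hcl := (hCL N V).1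
  refine ⟨?_, ?_, fun h => ⟨?_, ?_⟩⟩
  · have h1 : MeasurableSet (zr J ⁻¹' (newton V)ᶜ) :=
      (continuous_zr J).measurable hcl.measurableSet.compl
    have e : cyl V J = {x : Fin N → ℝ | 0 ≤ x} ∩
        ({x : Fin N → ℝ | ∀ j ∈ J, x j < 1} ∩ zr J ⁻¹' (newton V)ᶜ) := rfl
    rw [e]
    exact measurable_nonneg.inter ((measurable_lt J 1).inter h1)
  · have hsub : cyl V J ⊆ Icc (0 : Fin N → ℝ) (fun _ => max M 1) := by
      intro x hx
      refine ⟨hx.1, fun i => ?_⟩
      by_cases hi : i ∈ J
      · exact (hx.2.1 i hi).le.trans (le_max_right _ _)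
      · have h2 : 0 ≤ zr J x := by
          intro k
          unfold zr
          by_cases hk : k ∈ J
          · simp [hk]
          · simp only [if_neg hk]
            exact hx.1 k
        have h3 := hb (zr J x) h2 hx.2.2 i
        simp only [zr, if_neg hi] at h3
        exact h3.le.trans (le_max_left _ _)
    exact ((measure_mono hsub).trans_lt isCompact_Icc.measure_lt_top).ne
  · have e : part V h J = {x : Fin N → ℝ | 0 ≤ x} ∩
        ({x : Fin N → ℝ | ∀ j ∈ J, x j < h} ∩ (newton V)ᶜ) := rfl
    rw [e]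
    exact measurable_nonneg.inter ((measurable_lt J h).inter hcl.measurableSet.compl)
  · have hsub : part V h J ⊆ Icc (0 : Fin N → ℝ) (fun _ => M) := by
      intro x hx
      exact ⟨hx.1, fun i => (hb x hx.1 hx.2.2 i).le⟩
    exact ((measure_mono hsub).trans_lt isCompact_Icc.measure_lt_top).ne

end Pool.Agent.Helper44.KN.MF
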