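import Pool.Agent.Helper47.KN.Goals

/-!
# Project KN, packet XA: examples
-/

set_option autoImplicit false

namespace Pool.Agent.Helper44.KN.XA

open Equiv Pool.Agent.Helper62.GR Pool.Agent.Helper47.KN

theorem ai (g : Perm X) (x : X) : g (g⁻¹ x) = x := by
  rw [← Perm.mul_apply, mul_inv_cancel, Perm.one_apply]

theorem ia (g : Perm X) (x : X) : g⁻¹ (g x) = x := by
  rw [← Perm.mul_apply, inv_mul_cancel, Perm.one_apply]

/-- the permutation with the sections `g` at `c` and `h` at the other vertex -/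
def prc (c : Bool) (g h : Perm X) : Perm X := if c = true then pr h g else pr g h

theorem prc_c (c : Bool) (g h : Perm X) (x : X) : prc c g h (cn c x) = cn c (g x) := by
  cases c <;> simp [prc]

theorem prc_n (c : Bool) (g h : Perm X) (x : X) : prc c g h (cn (!c) x) = cn (!c) (h x) := by
  cases c <;> simp [prc]

/-- every sequence starts with `c` or with `!c` -/
theorem casesX (c : Bool) {P : X → Prop} (h1 : ∀ x, P (cn c x)) (h2 : ∀ x, P (cn (!c) x)) (x : X) :
    P x := by
  rw [← cn_tl x]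
  by_cases h : x 0 = c
  · rw [h]
    exact h1 _
  · have : x 0 = !c := by
      revert h
      cases x 0 <;> cases c <;> simp
    rw [this]
    exact h2 _

/-- automorphisms of the tree -/
def Aut (g : Perm X) : Prop := ∀ j x y, Agr j (g x) (g y) ↔ Agr j x y

theorem Aut.inv {g : Perm X} (h : Aut g) : Aut g⁻¹ := by
  intro j x y
  rw [← h j (g⁻¹ x) (g⁻¹ y)]
  simp

theorem Aut.mul {g g' : Perm X} (h : Aut g) (h' : Aut g') : Aut (g * g') := by
  intro j x y
  rw [Perm.mul_apply, Perm.mul_apply, h, h']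

theorem Aut.one : Aut 1 := fun _ _ _ => Iff.rfl

theorem Aut.pow {g : Perm X} (h : Aut g) (k : ℕ) : Aut (g ^ k) := by
  induction k with
  | zero => rw [pow_zero]; exact Aut.one
  | succ k ih => rw [pow_succ]; exact ih.mul h

theorem aut_prc (c : Bool) {g h : Perm X} (hg : Aut g) (hh : Aut h) : Aut (prc c g h) := by
  intro j x y
  cases j with
  | zero => exact ⟨fun _ => Agr_zero _ _, fun _ => Agr_zero _ _⟩
  | succ j =>
    revert x
    refine casesX c ?_ ?_
    · intro x
      revert y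
      refine casesX c ?_ ?_
      · intro y
        rw [prc_c, prc_c, Agr_cn, Agr_cn, hg]
      · intro y
        rw [prc_c, prc_n, Agr_cn, Agr_cn]
        cases c <;> simp
    · intro x
      revert y
      refine casesX c ?_ ?_
      · intro y
        rw [prc_c, prc_n, Agr_cn, Agr_cn]
        cases c <;> simp
      · intro y
        rw [prc_n, prc_n, Agr_cn, Agr_cn, hh]

/-! ### limits -/

theorem agr_limit (T : ℕ → X → X) (hT : ∀ m x, Agr m (T m x) (T (m + 1) x)) (x : X) :
    ∀ m, Agr m (fun j => T (j + 1) x j) (T m x) := by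
  have h1 : ∀ a b, a ≤ b → Agr a (T a x) (T b x) := by
    intro a b hab
    induction b, hab using Nat.le_induction with
    | base => exact Agr.refl _ _
    | succ b hab ih => exact ih.trans ((hT b x).mono hab)
  intro m i hi
  exact h1 (i + 1) m (by omega) i (by omega)

theorem exists_limit (T : ℕ → Perm X) (hA : ∀ m, Aut (T m))
    (hT : ∀ m x, Agr m (T m x) (T (m + 1) x)) :
    ∃ t : Perm X, Aut t ∧ ∀ m x, Agr m (t x) (T m x) := by
  have hT' : ∀ m x, Agr m ((T m)⁻¹ x) ((T (m + 1))⁻¹ x) := by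
    intro m x
    rw [← hA m, ai]
    have := hT m ((T (m + 1))⁻¹ x)
    rw [ai] at this
    exact this.symm
  have h1 := fun x => agr_limit (fun m => T m) hT x
  have h2 := fun x => agr_limit (fun m => ((T m)⁻¹ : Perm X)) hT' x
  refine ⟨⟨fun x j => T (j + 1) x j, fun x j => (T (j + 1))⁻¹ x j, ?_, ?_⟩, ?_, ?_⟩
  · intro x
    refine eq_of_Agr fun m => ?_
    refine (h2 (fun j => T (j + 1) x j) m).trans ?_
    show Agr m ((T m)⁻¹ _) _
    rw [← hA m, ai]
    exact h1 x m
  · intro x
    refine eq_of_Agr fun m => ?_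
    refine (h1 (fun j => (T (j + 1))⁻¹ x j) m).trans ?_
    show Agr m ((T m) _) _
    rw [← (hA m).inv, ia]
    exact h2 x m
  · intro m x y
    constructor
    · intro h
      exact (hA m m x y).1 (((h1 x m).symm.trans h).trans (h1 y m))
    · intro h
      exact ((h1 x m).trans ((hA m m x y).2 h)).trans (h1 y m).symm
  · intro m x
    exact h1 x m

section

variable {n : ℕ} {v : ZMod (n + 2) → Bool} (hv : ∀ i, v i = v 0)

include hv

omit hv in
theorem aut_ag (i : ZMod (n + 2)) : Aut (ag v i) := by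
  intro j x y
  rw [← ev_of, agr_ev]

theorem ag_c {i : ZMod (n + 2)} (hi : i ≠ 0) (m : ℕ) (x : X) :
    (ag v i ^ m) (cn (v 0) x) = cn (v 0) ((ag v (i - 1) ^ m) x) := by
  induction m generalizing x with
  | zero => simp
  | succ m ih =>
    rw [pow_succ, Perm.mul_apply, ag_cn, hv i, if_pos rfl, pow_succ, Perm.mul_apply]
    simp only [hi, decide_false, Bool.xor_false]
    exact ih _

theorem ag_n {i : ZMod (n + 2)} (hi : i ≠ 0) (m : ℕ) (x : X) :
    (ag v i ^ m) (cn (!v 0) x) = cn (!v 0) x := by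
  induction m generalizing x with
  | zero => simp
  | succ m ih =>
    rw [pow_succ, Perm.mul_apply, ag_cn, hv i, if_neg (by cases v 0 <;> simp)]
    simp only [hi, decide_false, Bool.xor_false]
    exact ih _

omit hv in
theorem a0_c (x : X) : ag v 0 (cn (v 0) x) = cn (!v 0) (ag v (-1) x) := by
  rw [ag_cn, if_pos rfl]
  simp

omit hv in
theorem a0_n (x : X) : ag v 0 (cn (!v 0) x) = cn (v 0) x := by
  rw [ag_cn, if_neg (by cases v 0 <;> simp)]
  simp

theorem a0_even_c (k : ℕ) (x : X) :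
    (ag v 0 ^ (2 * k)) (cn (v 0) x) = cn (v 0) ((ag v (-1) ^ k) x) := by
  induction k generalizing x with
  | zero => simp
  | succ k ih =>
    rw [show 2 * (k + 1) = 2 * k + 1 + 1 by ring, pow_succ, pow_succ, Perm.mul_apply,
      Perm.mul_apply, a0_c (v := v), a0_n (v := v), ih, pow_succ, Perm.mul_apply]

theorem a0_even_n (k : ℕ) (x : X) :
    (ag v 0 ^ (2 * k)) (cn (!v 0) x) = cn (!v 0) ((ag v (-1) ^ k) x) := by
  induction k generalizing x with
  | zero => simp
  | succ k ih =>
    rw [show 2 * (k + 1) = 2 * k + 1 + 1 by ring, pow_succ, pow_succ, Perm.mul_apply,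
      Perm.mul_apply, a0_n (v := v), a0_c (v := v), ih, pow_succ, Perm.mul_apply]

theorem a0_odd_c (k : ℕ) (x : X) :
    (ag v 0 ^ (2 * k + 1)) (cn (v 0) x) = cn (!v 0) ((ag v (-1) ^ (k + 1)) x) := by
  rw [pow_succ, Perm.mul_apply, a0_c (v := v), a0_even_n hv, pow_succ, Perm.mul_apply]

theorem a0_odd_n (k : ℕ) (x : X) :
    (ag v 0 ^ (2 * k + 1)) (cn (!v 0) x) = cn (v 0) ((ag v (-1) ^ k) x) := by
  rw [pow_succ, Perm.mul_apply, a0_n (v := v), a0_even_c hv]

/-- the homeomorphism `t` -/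
theorem exists_t (k : ℕ) : ∃ t : Perm X, Aut t ∧
    (∀ x, t (cn (v 0) x) = cn (v 0) (t x)) ∧
    ∀ x, t (cn (!v 0) x) = cn (!v 0) ((ag v (-1) ^ k)⁻¹ (t x)) := by
  set z : Perm X := (ag v (-1) ^ k)⁻¹ with hz
  have hzA : Aut z := ((aut_ag (v := v) (-1)).pow k).inv
  let T : ℕ → Perm X := fun m => Nat.rec 1 (fun _ S => prc (v 0) S (z * S)) m
  have hT0 : T 0 = 1 := rfl
  have hTs : ∀ m, T (m + 1) = prc (v 0) (T m) (z * T m) := fun m => rfl
  have hA : ∀ m, Aut (T m) := by
    intro m
    induction m with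
    | zero => rw [hT0]; exact Aut.one
    | succ m ih => rw [hTs]; exact aut_prc _ ih (hzA.mul ih)
  have hag : ∀ m x, Agr m (T m x) (T (m + 1) x) := by
    intro m
    induction m with
    | zero => exact fun x => Agr_zero _ _
    | succ m ih =>
      refine casesX (v 0) ?_ ?_
      · intro x
        rw [hTs (m + 1), prc_c, hTs m, prc_c, Agr_cn]
        exact ⟨rfl, ih x⟩
      · intro x
        rw [hTs (m + 1), prc_n, hTs m, prc_n, Agr_cn, Perm.mul_apply, Perm.mul_apply, hzA]
        exact ⟨rfl, ih x⟩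
  obtain ⟨t, ht, h⟩ := exists_limit T hA hag
  refine ⟨t, ht, fun x => eq_of_Agr fun m => ?_, fun x => eq_of_Agr fun m => ?_⟩
  · have h1 := h (m + 1) (cn (v 0) x)
    rw [hTs, prc_c] at h1
    have h2 : Agr (m + 1) (cn (v 0) (T m x)) (cn (v 0) (t x)) :=
      Agr_cn.2 ⟨rfl, (h m x).symm⟩
    exact (h1.trans h2).mono (by omega)
  · have h1 := h (m + 1) (cn (!v 0) x)
    rw [hTs, prc_n, Perm.mul_apply] at h1
    have h2 : Agr (m + 1) (cn (!v 0) (z (T m x))) (cn (!v 0) (z (t x))) :=
      Agr_cn.2 ⟨rfl, (hzA m _ _).2 (h m x).symm⟩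
    exact (h1.trans h2).mono (by omega)

theorem t_rel (k : ℕ) (t : Perm X) (h1 : ∀ x, t (cn (v 0) x) = cn (v 0) (t x))
    (h2 : ∀ x, t (cn (!v 0) x) = cn (!v 0) ((ag v (-1) ^ k)⁻¹ (t x))) (i : ZMod (n + 2)) :
    t * ag v i = ag v i ^ (2 * k + 1) * t := by
  have key : ∀ m (i : ZMod (n + 2)) (x : X),
      Agr m (t (ag v i x)) ((ag v i ^ (2 * k + 1)) (t x)) := by
    intro m
    induction m with
    | zero => exact fun i x => Agr_zero _ _
    | succ m ih =>
      intro i
      by_cases hi : i = 0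
      · subst hi
        refine casesX (v 0) ?_ ?_
        · intro x
          rw [a0_c (v := v), h2, h1, a0_odd_c hv, Agr_cn]
          refine ⟨rfl, ?_⟩
          have h3 := ih (-1) x
          have h4 := (((aut_ag (v := v) (-1)).pow k).inv m _ _).2 h3
          refine h4.trans ?_
          rw [show (2 * k + 1) = k + (k + 1) by ring, pow_add, Perm.mul_apply,
            ia]
          exact Agr.refl _ _
        · intro x
          rw [a0_n (v := v), h1, h2, a0_odd_n hv, Agr_cn, ai]
          exact ⟨rfl, Agr.refl _ _⟩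
      · refine casesX (v 0) ?_ ?_
        · intro x
          have h3 := ag_c hv hi 1 x
          rw [pow_one, pow_one] at h3
          rw [h3, h1, h1, ag_c hv hi, Agr_cn]
          exact ⟨rfl, ih _ _⟩
        · intro x
          have h3 := ag_n hv hi 1 x
          rw [pow_one] at h3
          rw [h3, h2, ag_n hv hi]
          exact Agr.refl _ _
  ext1 x
  rw [Perm.mul_apply, Perm.mul_apply]
  exact eq_of_Agr fun m => key m i x

omit hv in
theorem conj_mem {t : Perm X} {u : ℕ} (h : ∀ i, t * ag v i = ag v i ^ u * t) :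
    ∀ g ∈ KG v, t * g * t⁻¹ ∈ KG v := by
  intro g hg
  unfold KG at hg
  induction hg using Subgroup.closure_induction with
  | mem x hx =>
    obtain ⟨i, rfl⟩ := hx
    rw [h, mul_inv_cancel_right]
    exact Subgroup.pow_mem _ (ag_mem v i) _
  | one => simp
  | mul x y _ _ hx hy =>
    have : t * (x * y) * t⁻¹ = (t * x * t⁻¹) * (t * y * t⁻¹) := by group
    rw [this]
    exact Subgroup.mul_mem _ hx hy
  | inv x _ hx =>
    have : t * x⁻¹ * t⁻¹ = (t * x * t⁻¹)⁻¹ := by group
    rw [this]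
    exact Subgroup.inv_mem _ hx

end

/-- a map on a finite quotient -/
theorem surj_mod {A B : Type} [Finite B] (r : A → B) (s : A → A)
    (h : ∀ a a', r (s a) = r (s a') ↔ r a = r a') (a : A) : ∃ b, r (s b) = r a := by
  have hfin : Finite (Quotient (Setoid.ker r)) :=
    Finite.of_injective (Quotient.lift r fun _ _ h => h) (by
      rintro ⟨x⟩ ⟨y⟩ hxy
      exact Quotient.sound hxy)
  let f : Quotient (Setoid.ker r) → Quotient (Setoid.ker r) :=
    Quotient.map s fun x y hxy => (h x y).2 hxy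
  have hf : Function.Injective f := by
    rintro ⟨x⟩ ⟨y⟩ hxy
    have h1 : (Quotient.mk (Setoid.ker r) (s x)) = Quotient.mk (Setoid.ker r) (s y) := hxy
    have h2 : r (s x) = r (s y) := Quotient.exact h1
    exact Quotient.sound ((h x y).1 h2)
  obtain ⟨⟨b⟩, hb⟩ := (Finite.injective_iff_surjective.1 hf) (Quotient.mk _ a)
  refine ⟨b, ?_⟩
  have h1 : (Quotient.mk (Setoid.ker r) (s b)) = Quotient.mk (Setoid.ker r) a := hb
  exact Quotient.exact h1

/-- extend a finite word -/
def exw (m : ℕ) (w : Fin m → Bool) : X := fun i => if h : i < m then w ⟨i, h⟩ else false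

theorem agr_exw (m : ℕ) (x : X) : Agr m x (exw m fun j => x j) := by
  intro i hi
  simp [exw, hi]

/-- the action of `g` on the words of length `m` -/
def rs {G : Subgroup (Perm X)} (m : ℕ) (g : G) (w : Fin m → Bool) (j : Fin m) : Bool :=
  (g : Perm X) (exw m w) j

theorem rs_iff {G : Subgroup (Perm X)} (hG : ∀ g ∈ G, Aut g) (m : ℕ) (g g' : G) :
    rs m g = rs m g' ↔ ∀ x, Agr m ((g : Perm X) x) ((g' : Perm X) x) := by
  constructor
  · intro h x
    have h1 : Agr m ((g : Perm X) x) ((g : Perm X) (exw m fun j => x j)) :=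
      (hG _ g.2 m _ _).2 (agr_exw m x)
    have h2 : Agr m ((g' : Perm X) x) ((g' : Perm X) (exw m fun j => x j)) :=
      (hG _ g'.2 m _ _).2 (agr_exw m x)
    refine (h1.trans ?_).trans h2.symm
    intro i hi
    exact congrFun (congrFun h fun j => x j) ⟨i, hi⟩
  · intro h
    funext w j
    exact h (exw m w) j j.2

theorem t (hD : K_DEP) (hE : K_EX) : K_XA := by
  intro n v hv k hk
  obtain ⟨t, tA, h1, h2⟩ := exists_t hv k
  have hrel := t_rel hv k t h1 h2
  have hmem := conj_mem hrel
  have hG : ∀ g ∈ KG v, Aut g := by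
    refine KG_induction v ?_
    intro w j x y
    exact agr_ev v j w x y
  let σ : KG v →* KG v :=
    ((MulAut.conj t).toMonoidHom.comp (KG v).subtype).codRestrict (KG v) fun g => hmem g g.2
  have hσ : ∀ g : KG v, (σ g : Perm X) = t * g * t⁻¹ := fun g => rfl
  have hσx : ∀ (g : KG v) (x : X), (σ g : Perm X) x = t ((g : Perm X) (t⁻¹ x)) := fun g x => rfl
  have hval : ∀ i, σ ⟨ag v i, ag_mem v i⟩ = ⟨ag v i, ag_mem v i⟩ ^ (2 * k + 1) := by
    intro i
    apply Subtype.ext
    rw [hσ]
    show t * ag v i * t⁻¹ = _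
    rw [hrel, mul_inv_cancel_right]
    rfl
  refine ⟨σ, ?_, ?_, ?_, hval⟩
  · intro g g' h
    have h3 : (σ g : Perm X) = σ g' := congrArg _ h
    rw [hσ, hσ] at h3
    apply Subtype.ext
    exact mul_left_cancel (mul_right_cancel h3)
  · intro hs
    obtain ⟨g, hg⟩ := hs ⟨ag v 0, ag_mem v 0⟩
    obtain ⟨w, hw⟩ := exists_ev v g.2
    let ρ : FreeGroup (ZMod (n + 2)) →* FreeGroup (ZMod (n + 2)) :=
      FreeGroup.lift fun i => FreeGroup.of i ^ (2 * k + 1)
    have hρ : ∀ w, ev v (ρ w) = t * ev v w * t⁻¹ := by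
      intro w
      have : (ev v).comp ρ = (MulAut.conj t).toMonoidHom.comp (ev v) := by
        ext1 i
        show ev v (ρ (FreeGroup.of i)) = t * ev v (FreeGroup.of i) * t⁻¹
        have : ρ (FreeGroup.of i) = FreeGroup.of i ^ (2 * k + 1) := FreeGroup.lift_apply_of
        rw [this, map_pow, ev_of, hrel, mul_inv_cancel_right]
      exact DFunLike.congr_fun this w
    have h3 : ev v (ρ w) = ev v (FreeGroup.of 0) := by
      rw [hρ, hw, ← hσ, hg, ev_of]
    have h4 : ρ w * (FreeGroup.of 0)⁻¹ ∈ NN v := by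
      rw [mem_NN, map_mul, map_inv, h3, mul_inv_cancel]
    obtain ⟨K, hK⟩ := hD n v _ h4
    have h5 := hE.2.1 n v K _ hK 0
    have h6 : ex 0 (ρ w) = (ex 0 w) ^ (2 * k + 1) := by
      have : (ex 0).comp ρ = (powMonoidHom (2 * k + 1)).comp (ex (0 : ZMod (n + 2))) := by
        ext1 i
        show ex 0 (ρ (FreeGroup.of i)) = (ex 0 (FreeGroup.of i)) ^ (2 * k + 1)
        have : ρ (FreeGroup.of i) = FreeGroup.of i ^ (2 * k + 1) := FreeGroup.lift_apply_of
        rw [this, map_pow]
      exact DFunLike.congr_fun this w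
    have h7 : ex 0 (FreeGroup.of (0 : ZMod (n + 2))) = Multiplicative.ofAdd 1 := by
      simp [ex]
    rw [map_mul, map_inv, h6, h7, mul_inv_eq_one] at h5
    have h8 := congrArg Multiplicative.toAdd h5
    rw [toAdd_pow, toAdd_ofAdd, nsmul_eq_mul] at h8
    have h9 : ((2 * k + 1 : ℕ) : ℤ) ∣ 1 := ⟨_, h8.symm⟩
    have h10 := Int.le_of_dvd one_pos h9
    push_cast at h10
    omega
  · intro m g
    obtain ⟨h, hh⟩ := surj_mod (rs m) σ (fun a a' => by
      rw [rs_iff hG, rs_iff hG]
      constructor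
      · intro h x
        have := h (t x)
        rw [hσx, hσx, tA, ia] at this
        exact this
      · intro h x
        rw [hσx, hσx, tA]
        exact h _) g
    exact ⟨h, (rs_iff hG m _ _).1 hh⟩

end Pool.Agent.Helper44.KN.XA
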